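import Mathlib

/-!
Completely Baire subspaces, free sets for meager relations, centered families and P-filters.
-/

namespace Pool.Agent.MP_2aae10_lc

/-- Every closed subspace of the subspace `A` is a Baire space. -/
def CompletelyBaire {X : Type} [TopologicalSpace X] (A : Set X) : Prop :=
  ∀ C : Set A, IsClosed C → BaireSpace C

/-- The assertion of question Q1: for every crowded Polish space and every sequence of meager
relations on it there is a dense, completely Baire, free subspace. -/
def FreeSubspacesExist : Prop :=
  ∀ (X : Type) [TopologicalSpace X] [PolishSpace X] [PerfectSpace X]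
    (n : ℕ → ℕ) (R : ∀ k : ℕ, Set (Fin (n k) → X)),
    (∀ k, 1 ≤ n k) → (∀ k, IsMeagre (R k)) →
    ∃ A : Set X, Dense A ∧ CompletelyBaire A ∧
      ∀ (k : ℕ) (f : Fin (n k) → X), Function.Injective f → (∀ i, f i ∈ A) → f ∉ R k

/-- A family of subsets of `ℕ` (points of the Cantor space) any finitely many members of which
have infinite intersection. -/
def Centered (Y : Set (ℕ → Bool)) : Prop :=
  ∀ s : Finset (ℕ → Bool), (↑s : Set (ℕ → Bool)) ⊆ Y → {m : ℕ | ∀ y ∈ s, y m = true}.Infinite

/-- A non-meager P-filter: a proper filter on `ℕ` containing all cofinite sets, in which every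
sequence of members has a pseudo-intersection in the filter, and which is not meager as a subset
of the Cantor space. -/
structure IsNonmeagerPFilter (F : Filter ℕ) : Prop where
  proper : F ≠ ⊥
  free : F ≤ Filter.cofinite
  pseudo : ∀ s : ℕ → Set ℕ, (∀ i, s i ∈ F) → ∃ t ∈ F, ∀ i, (t \ s i).Finite
  nonmeager : ¬ IsMeagre {y : ℕ → Bool | {m : ℕ | y m = true} ∈ F}

end Pool.Agent.MP_2aae10_lc
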